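import Mathlib
import Pool.Agent.Hhelper85.CZ.Defs

/-!
# Zero density for class group L-functions of number fields of degree `n`: definitions
-/

open scoped NumberField nonZeroDivisors
open NumberField NumberField.Units NumberField.Units.dirichletUnitTheorem

namespace Pool.GZD

open Pool.Hhelper85.CZ (rCl)

/-- The nonzero elements `α` of the ideal `J` with `c w * |α|_w ≤ ρ` at all infinite places `w`. -/
def boxSet (K : Type) [Field K] [NumberField K] (J : (Ideal (𝓞 K))⁰) (c : InfinitePlace K → ℝ)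
    (rho : ℝ) : Set (𝓞 K) :=
  {α | α ∈ (J : Ideal (𝓞 K)) ∧ α ≠ 0 ∧ ∀ w : InfinitePlace K, c w * w (α : K) ≤ rho}

open Classical in
/-- The weights `c_t(w)` attached to a point `t` of the log space; they satisfy
`∏ w, c_t(w) ^ mult w = 1` (lemma `prod_cT`). -/
noncomputable def cT (K : Type) [Field K] [NumberField K] (t : logSpace K) :
    InfinitePlace K → ℝ := fun w =>
  if h : w ≠ w₀ then Real.exp (-(t ⟨w, h⟩) / w.mult) else Real.exp ((∑ w', t w') / w.mult)

/-- Riesz mean of order `r` (`r` the rank of the unit group) of the ideals of norm `≤ X` in the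
class `A`. -/
noncomputable def Rsum (K : Type) [Field K] [NumberField K] (A : ClassGroup (𝓞 K)) (X : ℝ) : ℝ :=
  ∑ m ∈ Finset.Icc 1 ⌊X⌋₊, (rCl K A m : ℝ) * (Real.log (X / m)) ^ (Units.rank K)

/-- `G k s u = 1 - u^(-s) ∑_{j ≤ k} (s log u)^j / j!`, which for `u ≥ 1` is
`s^(k+1)/k! ∫_1^u (log v)^k v^(-s-1) dv`. -/
noncomputable def G (k : ℕ) (s : ℂ) (u : ℝ) : ℂ :=
  1 - (u : ℂ) ^ (-s) * ∑ j ∈ Finset.range (k + 1), (s * (Real.log u : ℝ)) ^ j / (j.factorial : ℂ)

end Pool.GZD
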